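import Pool.Agent.Helper78.AE.Spec

set_option autoImplicit false

/-!
# Swarm AE, part EQ2A
-/

namespace Pool.Agent.Helper51.AE.EQ2A

open Pool.Agent.Helper78.AE
open Matrix

variable {n : ℕ}

theorem symm_dot (A : Matrix (Fin n) (Fin n) ℝ) (hA : Aᵀ = A) (x y : Fin n → ℝ) :
    x ⬝ᵥ A.mulVec y = A.mulVec x ⬝ᵥ y := by
  rw [Matrix.dotProduct_mulVec, ← Matrix.mulVec_transpose, hA]

theorem sq_apply (A : Matrix (Fin n) (Fin n) ℝ) (t : ℝ) (u w : Fin n → ℝ)
    (h : A * A = 1 + (t ^ 2 - 1) • (Matrix.vecMulVec u u + Matrix.vecMulVec w w))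
    (y : Fin n → ℝ) (i : Fin n) :
    (A.mulVec (A.mulVec y)) i = y i + (t ^ 2 - 1) * ((u ⬝ᵥ y) * u i + (w ⬝ᵥ y) * w i) := by
  rw [Matrix.mulVec_mulVec, h, Matrix.add_mulVec, Matrix.one_mulVec, Matrix.smul_mulVec,
    Matrix.add_mulVec, Matrix.vecMulVec_mulVec, Matrix.vecMulVec_mulVec]
  simp only [Pi.add_apply, Pi.smul_apply, smul_eq_mul, MulOpposite.smul_eq_mul_unop,
    MulOpposite.unop_op]
  ring

theorem main : S_EQ2A := by
  intro n d A hC t u w hT
  obtain ⟨ht, hu, hw, huu, hww, huw, hAA⟩ := hT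
  have hAT : Aᵀ = A := by
    ext i j
    exact hC.symm j i
  set y : Fin n → ℝ := fun i => |w i| with hy
  have hyy : y ⬝ᵥ y = 1 := by
    rw [← hww]
    simp only [dotProduct, hy, abs_mul_abs_self]
  -- the quadratic form
  have hq : t ≤ y ⬝ᵥ A.mulVec y := by
    have h1 : w ⬝ᵥ A.mulVec w = -t := by
      rw [hw, dotProduct_smul, hww]
      simp
    have h2 : -(w ⬝ᵥ A.mulVec w) ≤ y ⬝ᵥ A.mulVec y := by
      simp only [dotProduct, Matrix.mulVec]
      rw [← Finset.sum_neg_distrib]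
      refine Finset.sum_le_sum fun i _ => ?_
      rw [Finset.mul_sum, Finset.mul_sum, ← Finset.sum_neg_distrib]
      refine Finset.sum_le_sum fun j _ => ?_
      have h3 : -(w i * (A i j * w j)) = A i j * (-(w i * w j)) := by ring
      have h4 : y i * (A i j * y j) = A i j * |w i * w j| := by
        rw [abs_mul]
        simp only [hy]
        ring
      rw [h3, h4]
      exact mul_le_mul_of_nonneg_left (neg_le_abs _) (hC.nonneg i j)
    rw [h1, neg_neg] at h2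
    exact h2
  -- Bessel
  have hb : (u ⬝ᵥ y) ^ 2 + (w ⬝ᵥ y) ^ 2 ≤ 1 := by
    have h1 : 0 ≤ (y - (u ⬝ᵥ y) • u - (w ⬝ᵥ y) • w) ⬝ᵥ (y - (u ⬝ᵥ y) • u - (w ⬝ᵥ y) • w) :=
      Finset.sum_nonneg fun i _ => mul_self_nonneg _
    have h2 : y ⬝ᵥ u = u ⬝ᵥ y := dotProduct_comm _ _
    have h3 : y ⬝ᵥ w = w ⬝ᵥ y := dotProduct_comm _ _
    have h4 : w ⬝ᵥ u = 0 := by rw [dotProduct_comm]; exact huw
    simp only [sub_dotProduct, dotProduct_sub, smul_dotProduct, dotProduct_smul, smul_eq_mul,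
      hyy, huu, hww, huw, h2, h3, h4] at h1
    nlinarith [h1]
  -- A y = t y
  have hA2 : A.mulVec y ⬝ᵥ A.mulVec y ≤ t ^ 2 := by
    rw [← symm_dot A hAT y (A.mulVec y)]
    have h1 : y ⬝ᵥ A.mulVec (A.mulVec y) =
        y ⬝ᵥ y + (t ^ 2 - 1) * ((u ⬝ᵥ y) ^ 2 + (w ⬝ᵥ y) ^ 2) := by
      have h2 : A.mulVec (A.mulVec y) =
          y + (t ^ 2 - 1) • ((u ⬝ᵥ y) • u + (w ⬝ᵥ y) • w) := by
        ext i
        rw [sq_apply A t u w hAA y i]
        simp only [Pi.add_apply, Pi.smul_apply, smul_eq_mul]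
      rw [h2]
      have h2' : y ⬝ᵥ u = u ⬝ᵥ y := dotProduct_comm _ _
      have h3' : y ⬝ᵥ w = w ⬝ᵥ y := dotProduct_comm _ _
      simp only [dotProduct_add, dotProduct_smul, smul_eq_mul, h2', h3']
      ring
    rw [h1, hyy]
    have h0 : 0 ≤ t ^ 2 - 1 := by nlinarith
    have h5 := mul_le_mul_of_nonneg_left hb h0
    linarith
  have hdiff : (A.mulVec y - t • y) ⬝ᵥ (A.mulVec y - t • y) ≤ 0 := by
    have h1 : A.mulVec y ⬝ᵥ y = y ⬝ᵥ A.mulVec y := dotProduct_comm _ _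
    simp only [sub_dotProduct, dotProduct_sub, smul_dotProduct, dotProduct_smul, smul_eq_mul,
      hyy, h1]
    nlinarith [hA2, hq]
  have hAy : A.mulVec y = t • y := by
    have h1 : (A.mulVec y - t • y) ⬝ᵥ (A.mulVec y - t • y) = 0 :=
      le_antisymm hdiff (Finset.sum_nonneg fun i _ => mul_self_nonneg _)
    exact sub_eq_zero.1 (dotProduct_self_eq_zero.1 h1)
  have hwy : w ⬝ᵥ y = 0 := by
    have h1 : w ⬝ᵥ A.mulVec y = A.mulVec w ⬝ᵥ y := symm_dot A hAT w y
    rw [hAy, hw, dotProduct_smul, smul_dotProduct, smul_eq_mul, smul_eq_mul] at h1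
    nlinarith [h1]
  have hyu : ∀ i, y i = (u ⬝ᵥ y) * u i := by
    intro i
    have h1 := sq_apply A t u w hAA y i
    rw [hAy, Matrix.mulVec_smul, hAy, hwy] at h1
    simp only [Pi.smul_apply, smul_eq_mul, zero_mul, add_zero] at h1
    have h2 : (t ^ 2 - 1) * (y i - (u ⬝ᵥ y) * u i) = 0 := by nlinarith [h1]
    rcases mul_eq_zero.1 h2 with h | h
    · nlinarith
    · linarith
  have hc2 : (u ⬝ᵥ y) ^ 2 = 1 := by
    have h1 : y ⬝ᵥ y = (u ⬝ᵥ y) ^ 2 * (u ⬝ᵥ u) := by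
      have h2 : y = (u ⬝ᵥ y) • u := by
        ext i
        rw [Pi.smul_apply, smul_eq_mul]
        exact hyu i
      conv_lhs => rw [h2]
      rw [smul_dotProduct, dotProduct_smul, smul_eq_mul, smul_eq_mul]
      ring
    rw [hyy, huu, mul_one] at h1
    exact h1.symm
  have hvv : Matrix.vecMulVec y y = Matrix.vecMulVec u u := by
    ext i j
    simp only [Matrix.vecMulVec_apply]
    rw [hyu i, hyu j]
    have : (u ⬝ᵥ y) * u i * ((u ⬝ᵥ y) * u j) = (u ⬝ᵥ y) ^ 2 * (u i * u j) := by ring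
    rw [this, hc2, one_mul]
  have hAA' : A * A = 1 + (t ^ 2 - 1) • (Matrix.vecMulVec y y + Matrix.vecMulVec w w) := by
    rw [hvv]
    exact hAA
  refine ⟨⟨ht, hAy, hw, hyy, hww, by rw [dotProduct_comm]; exact hwy, hAA'⟩, ?_⟩
  intro i
  by_contra hi
  have hwi : w i = 0 := abs_eq_zero.1 (le_antisymm (not_lt.1 hi) (abs_nonneg _))
  have hyi : y i = 0 := by simp only [hy, hwi, abs_zero]
  have hent : ∀ a b : Fin n, (A * A) a b =
      (1 : Matrix (Fin n) (Fin n) ℝ) a b + (t ^ 2 - 1) * (y a * y b + w a * w b) := by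
    intro a b
    rw [hAA']
    simp only [Matrix.add_apply, Matrix.smul_apply, Matrix.vecMulVec_apply, smul_eq_mul]
  have hii : ∑ j, A i j * A j i = 1 := by
    have h1 := hent i i
    rw [Matrix.mul_apply, hyi, hwi, Matrix.one_apply_eq] at h1
    linarith
  have him : ∀ m, m ≠ i → ∑ j, A i j * A j m = 0 := by
    intro m hm
    have h1 := hent i m
    rw [Matrix.mul_apply, hyi, hwi, Matrix.one_apply_ne (Ne.symm hm)] at h1
    linarith
  obtain ⟨j, -, hj⟩ : ∃ j ∈ Finset.univ, A i j * A j i ≠ 0 :=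
    Finset.exists_ne_zero_of_sum_ne_zero (by rw [hii]; exact one_ne_zero)
  have hij : A i j ≠ 0 := left_ne_zero_of_mul hj
  have hjm : ∀ m, m ≠ i → A j m = 0 := by
    intro m hm
    have h1 := (Finset.sum_eq_zero_iff_of_nonneg
      (fun k _ => mul_nonneg (hC.nonneg i k) (hC.nonneg k m))).1 (him m hm) j (Finset.mem_univ j)
    rcases mul_eq_zero.1 h1 with h | h
    · exact absurd h hij
    · exact h
  have hjj : (A * A) j j = A j i * A i j := by
    rw [Matrix.mul_apply]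
    refine Finset.sum_eq_single i ?_ ?_
    · intro m _ hm
      rw [hjm m hm, zero_mul]
    · intro h
      exact absurd (Finset.mem_univ i) h
  have h2 := hent j j
  rw [hjj, Matrix.one_apply_eq] at h2
  have h3 : 0 ≤ (t ^ 2 - 1) * (y j * y j + w j * w j) := by
    have h0 : 0 ≤ t ^ 2 - 1 := by nlinarith
    exact mul_nonneg h0 (add_nonneg (mul_self_nonneg _) (mul_self_nonneg _))
  have h4 : A j i * A i j < 1 := by
    have h5 := hC.lt_one i j
    have h6 := hC.nonneg i j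
    rw [hC.symm j i]
    nlinarith
  linarith

end Pool.Agent.Helper51.AE.EQ2A
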